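import Pool.Agent.Helper90.Tie.Defs

/-! Basic properties of sliced diagrams. -/

namespace Pool.Agent.Helper90.Tie

theorem fits_nil {n m : ℕ} : Fits n [] m ↔ n = m := Iff.rfl

theorem fits_cons {n m : ℕ} {l : Letter} {w : List Letter} :
    Fits n (l :: w) m ↔ l.pos + l.shape.ins ≤ n ∧ Fits (n - l.shape.ins + l.shape.outs) w m :=
  Iff.rfl

theorem fits_append {n m : ℕ} {u v : List Letter} :
    Fits n (u ++ v) m ↔ ∃ k, Fits n u k ∧ Fits k v m := by
  induction u generalizing n with
  | nil => simp [fits_nil]
  | cons l u ih =>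
    simp only [List.cons_append, fits_cons, ih]
    constructor
    · rintro ⟨h, k, h1, h2⟩
      exact ⟨k, ⟨h, h1⟩, h2⟩
    · rintro ⟨k, ⟨h, h1⟩, h2⟩
      exact ⟨h, k, h1, h2⟩

theorem Fits.append {n k m : ℕ} {u v : List Letter} (h1 : Fits n u k) (h2 : Fits k v m) :
    Fits n (u ++ v) m := fits_append.2 ⟨k, h1, h2⟩

theorem Fits.unique {n m m' : ℕ} {w : List Letter} (h : Fits n w m) (h' : Fits n w m') :
    m = m' := by
  induction w generalizing n with
  | nil => exact (fits_nil.1 h).symm.trans (fits_nil.1 h')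
  | cons l w ih => exact ih (fits_cons.1 h).2 (fits_cons.1 h').2

@[simp] theorem sh_nil (k : ℕ) : sh k [] = [] := rfl
@[simp] theorem sh_cons (k : ℕ) (l : Letter) (w : List Letter) :
    sh k (l :: w) = ⟨l.shape, l.pos + k⟩ :: sh k w := rfl
@[simp] theorem sh_append (k : ℕ) (u v : List Letter) : sh k (u ++ v) = sh k u ++ sh k v := by
  simp [sh]
theorem sh_sh (k j : ℕ) (u : List Letter) : sh k (sh j u) = sh (j + k) u := by
  simp only [sh, List.map_map]
  congr 1
  funext l
  simp [Nat.add_assoc]
@[simp] theorem sh_zero (u : List Letter) : sh 0 u = u := by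
  simp [sh]

theorem Fits.sh {n m : ℕ} {w : List Letter} (h : Fits n w m) (k : ℕ) :
    Fits (n + k) (sh k w) (m + k) := by
  induction w generalizing n with
  | nil => rw [sh_nil, fits_nil]; rw [fits_nil] at h; omega
  | cons l w ih =>
    rw [fits_cons] at h
    rw [sh_cons, fits_cons]
    refine ⟨by simp only; omega, ?_⟩
    have h2 := ih h.2
    have e : n + k - l.shape.ins + l.shape.outs = n - l.shape.ins + l.shape.outs + k := by omega
    simp only
    rw [e]
    exact h2

theorem Fits.wide {n m : ℕ} {w : List Letter} (h : Fits n w m) (k : ℕ) :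
    Fits (n + k) w (m + k) := by
  induction w generalizing n with
  | nil => rw [fits_nil] at h ⊢; omega
  | cons l w ih =>
    rw [fits_cons] at h ⊢
    refine ⟨by omega, ?_⟩
    have h2 := ih h.2
    have e : n + k - l.shape.ins + l.shape.outs = n - l.shape.ins + l.shape.outs + k := by omega
    rw [e]
    exact h2

/-- translation of a local move -/
def Mv.sh (k : ℕ) : Mv → Mv
  | .zig i => .zig (i + k)
  | .zag i => .zag (i + k)
  | .r1cap i o => .r1cap (i + k) o
  | .r1cup i o => .r1cup (i + k) o
  | .r2 i o => .r2 (i + k) o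
  | .r3 i o => .r3 (i + k) o
  | .pcap i o => .pcap (i + k) o
  | .pcup i o => .pcup (i + k) o
  | .comm s i t j => .comm s (i + k) t j

theorem Mv.lhs_sh (k : ℕ) (v : Mv) : (v.sh k).lhs = Tie.sh k v.lhs := by
  cases v <;> simp [Mv.sh, Mv.lhs, cap, cup, X] <;> omega

theorem Mv.rhs_sh (k : ℕ) (v : Mv) : (v.sh k).rhs = Tie.sh k v.rhs := by
  cases v <;> simp [Mv.sh, Mv.rhs, cap, cup, X] <;> omega

theorem Step.congr {n m a b : ℕ} {u v p s : List Letter} (h : Step n m u v) (hp : Fits a p n)
    (hs : Fits m s b) : Step a b (p ++ u ++ s) (p ++ v ++ s) := by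
  obtain ⟨h1, h2, q, r, w, rfl, rfl⟩ := h
  refine ⟨(hp.append h1).append hs, (hp.append h2).append hs, p ++ q, r ++ s, w, ?_, ?_⟩ <;>
    simp only [List.append_assoc]

theorem Step.sh {n m : ℕ} {u v : List Letter} (h : Step n m u v) (k : ℕ) :
    Step (n + k) (m + k) (Tie.sh k u) (Tie.sh k v) := by
  obtain ⟨h1, h2, q, r, w, rfl, rfl⟩ := h
  refine ⟨h1.sh k, h2.sh k, Tie.sh k q, Tie.sh k r, w.sh k, ?_, ?_⟩
  · rw [sh_append, sh_append, Mv.lhs_sh]
  · rw [sh_append, sh_append, Mv.rhs_sh]

theorem Step.wide {n m : ℕ} {u v : List Letter} (h : Step n m u v) (k : ℕ) :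
    Step (n + k) (m + k) u v := by
  obtain ⟨h1, h2, q, r, w, rfl, rfl⟩ := h
  exact ⟨h1.wide k, h2.wide k, q, r, w, rfl, rfl⟩

namespace Isotopic

theorem refl {n m : ℕ} (u : List Letter) : Isotopic n m u u := Relation.EqvGen.refl u

theorem symm {n m : ℕ} {u v : List Letter} (h : Isotopic n m u v) : Isotopic n m v u :=
  Relation.EqvGen.symm _ _ h

theorem trans {n m : ℕ} {u v w : List Letter} (h : Isotopic n m u v) (h' : Isotopic n m v w) :
    Isotopic n m u w := Relation.EqvGen.trans _ _ _ h h'

theorem of_step {n m : ℕ} {u v : List Letter} (h : Step n m u v) : Isotopic n m u v :=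
  Relation.EqvGen.rel _ _ h

theorem map {n m a b : ℕ} {f : List Letter → List Letter}
    (hf : ∀ u v, Step n m u v → Step a b (f u) (f v)) {u v : List Letter}
    (h : Isotopic n m u v) : Isotopic a b (f u) (f v) := by
  unfold Isotopic at h
  induction h with
  | rel x y h => exact of_step (hf x y h)
  | refl x => exact refl _
  | symm x y _ ih => exact ih.symm
  | trans x y z _ _ ih1 ih2 => exact ih1.trans ih2

theorem congr {n m a b : ℕ} {u v : List Letter} (h : Isotopic n m u v) (p s : List Letter)
    (hp : Fits a p n) (hs : Fits m s b) : Isotopic a b (p ++ u ++ s) (p ++ v ++ s) :=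
  h.map (f := fun w => p ++ w ++ s) fun _ _ h' => h'.congr hp hs

theorem left {n m a : ℕ} {u v : List Letter} (h : Isotopic n m u v) (p : List Letter)
    (hp : Fits a p n) : Isotopic a m (p ++ u) (p ++ v) := by
  have := h.congr p [] hp (fits_nil.2 rfl)
  simpa using this

theorem right {n m b : ℕ} {u v : List Letter} (h : Isotopic n m u v) (s : List Letter)
    (hs : Fits m s b) : Isotopic n b (u ++ s) (v ++ s) := by
  have := h.congr [] s (fits_nil.2 rfl) hs
  simpa using this

theorem sh {n m : ℕ} {u v : List Letter} (h : Isotopic n m u v) (k : ℕ) :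
    Isotopic (n + k) (m + k) (Tie.sh k u) (Tie.sh k v) :=
  h.map fun _ _ h' => h'.sh k

theorem wide {n m : ℕ} {u v : List Letter} (h : Isotopic n m u v) (k : ℕ) :
    Isotopic (n + k) (m + k) u v :=
  h.map (f := fun w => w) fun _ _ h' => h'.wide k

theorem fits {n m : ℕ} {u v : List Letter} (h : Isotopic n m u v) :
    Fits n u m ↔ Fits n v m := by
  unfold Isotopic at h
  induction h with
  | rel x y h => exact ⟨fun _ => h.2.1, fun _ => h.1⟩
  | refl x => exact Iff.rfl
  | symm x y _ ih => exact ih.symm
  | trans x y z _ _ ih1 ih2 => exact ih1.trans ih2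

end Isotopic

/-- An instruction: apply the local move `mv` at the place `k` (backwards if `fwd = false`). -/
structure Instr where
  k : ℕ
  mv : Mv
  fwd : Bool

def Instr.src (I : Instr) : List Letter := if I.fwd then I.mv.lhs else I.mv.rhs
def Instr.tgt (I : Instr) : List Letter := if I.fwd then I.mv.rhs else I.mv.lhs
def Instr.app (I : Instr) (D : List Letter) : List Letter :=
  D.take I.k ++ I.tgt ++ D.drop (I.k + I.src.length)

/-- Check of a list of instructions. -/
def chk (n m : ℕ) : List Instr → List Letter → List Letter → Bool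
  | [], D, E => decide (D = E)
  | I :: r, D, E =>
    decide (D = D.take I.k ++ I.src ++ D.drop (I.k + I.src.length)) && decide (Fits n D m) &&
      decide (Fits n (I.app D) m) && chk n m r (I.app D) E

theorem iso_of_chk {n m : ℕ} (r : List Instr) {D E : List Letter} (h : chk n m r D E = true) :
    Isotopic n m D E := by
  induction r generalizing D with
  | nil =>
    have := of_decide_eq_true h
    rw [this]
    exact Isotopic.refl _
  | cons I r ih =>
    simp only [chk, Bool.and_eq_true, decide_eq_true_eq] at h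
    obtain ⟨⟨⟨h1, h2⟩, h3⟩, h4⟩ := h
    refine Isotopic.trans ?_ (ih h4)
    obtain ⟨k, mv, fwd⟩ := I
    cases fwd with
    | true =>
      refine Isotopic.of_step ⟨h2, h3, D.take k, D.drop (k + mv.lhs.length), mv, ?_, rfl⟩
      simpa [Instr.src] using h1
    | false =>
      refine Isotopic.symm (Isotopic.of_step ⟨h3, h2, D.take k,
        D.drop (k + mv.rhs.length), mv, rfl, ?_⟩)
      simpa [Instr.src] using h1

/-! Distant pieces commute. -/

theorem comm_letter (s t : Shape) {i j n p : ℕ} (hi : i + s.ins ≤ n) (hj : j + t.ins ≤ p) :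
    Isotopic (n + p) ((n - s.ins + s.outs) + (p - t.ins + t.outs))
      [⟨s, i⟩, ⟨t, j + (n - s.ins + s.outs)⟩] [⟨t, j + n⟩, ⟨s, i⟩] := by
  refine Isotopic.symm (Isotopic.of_step ⟨?_, ?_, [], [], .comm s i t (n - s.ins - i + j), ?_, ?_⟩)
  · simp only [fits_cons, fits_nil]
    omega
  · simp only [fits_cons, fits_nil]
    omega
  · simp only [Mv.lhs, List.nil_append, List.append_nil, List.cons.injEq, Letter.mk.injEq,
      true_and, and_true]
    omega
  · simp only [Mv.rhs, List.nil_append, List.append_nil, List.cons.injEq, Letter.mk.injEq,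
      true_and, and_true]
    omega

theorem comm_one (s : Shape) {i n p q : ℕ} {v : List Letter} (hi : i + s.ins ≤ n)
    (hv : Fits p v q) :
    Isotopic (n + p) ((n - s.ins + s.outs) + q)
      ([⟨s, i⟩] ++ sh (n - s.ins + s.outs) v) (sh n v ++ [⟨s, i⟩]) := by
  induction v generalizing p with
  | nil => exact Isotopic.refl _
  | cons l v ih =>
    obtain ⟨t, j⟩ := l
    rw [fits_cons] at hv
    simp only at hv
    have h1 := comm_letter s t hi hv.1
    have h2 := ih hv.2
    have h3 := h1.right (sh (n - s.ins + s.outs) v)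
      (b := (n - s.ins + s.outs) + q) (by
        have := hv.2.sh (n - s.ins + s.outs)
        rwa [Nat.add_comm _ (n - s.ins + s.outs), Nat.add_comm q] at this)
    have h4 := h2.left [⟨t, j + n⟩] (a := n + p) (by
      simp only [fits_cons, fits_nil]
      omega)
    refine Isotopic.trans (v := [⟨t, j + n⟩] ++ ([⟨s, i⟩] ++ sh (n - s.ins + s.outs) v)) ?_ ?_
    · simpa using h3
    · simpa using h4

theorem comm_words {n m p q : ℕ} {u v : List Letter} (hu : Fits n u m) (hv : Fits p v q) :
    Isotopic (n + p) (m + q) (u ++ sh m v) (sh n v ++ u) := by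
  induction u generalizing n with
  | nil =>
    rw [fits_nil] at hu
    subst hu
    simp only [List.nil_append, List.append_nil]
    exact Isotopic.refl _
  | cons l u ih =>
    obtain ⟨s, i⟩ := l
    rw [fits_cons] at hu
    simp only at hu
    have h1 := ih hu.2
    have h2 := h1.left [⟨s, i⟩] (a := n + p) (by
      simp only [fits_cons, fits_nil]
      omega)
    have h3 := (comm_one s hu.1 hv).right u (b := m + q) (by
      have := hu.2.wide q
      exact this)
    refine Isotopic.trans (v := [⟨s, i⟩] ++ (sh (n - s.ins + s.outs) v ++ u)) ?_ ?_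
    · simpa using h2
    · simpa using h3

end Pool.Agent.Helper90.Tie
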