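import Mathlib.Logic.Relation
import Mathlib.Order.ConditionallyCompleteLattice.Basic
import Mathlib.Tactic

/-! Sliced link diagrams, isotopy, bridge number, and the standard diagrams of tie knots. -/

namespace Pool.Agent.Helper90.Tie

/-- The elementary pieces of a sliced diagram, read from top to bottom: a local maximum, a local
minimum, a crossing. For `cross o` the strand running from the upper left to the lower right
passes over if `o = true`, and under if `o = false`. -/
inductive Shape where
  | cap : Shape
  | cup : Shape
  | cross (o : Bool) : Shape
deriving DecidableEq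

/-- Number of strands entering from above. -/
def Shape.ins : Shape → ℕ
  | .cap => 0
  | .cup => 2
  | .cross _ => 2

/-- Number of strands leaving below. -/
def Shape.outs : Shape → ℕ
  | .cap => 2
  | .cup => 0
  | .cross _ => 2

/-- One slice: an elementary piece with `pos` vertical strands to its left. -/
structure Letter where
  shape : Shape
  pos : ℕ
deriving DecidableEq

/-- a local maximum, creating strands number `i` and `i + 1` -/
abbrev cap (i : ℕ) : Letter := ⟨.cap, i⟩
/-- a local minimum, joining the strands number `i` and `i + 1` -/
abbrev cup (i : ℕ) : Letter := ⟨.cup, i⟩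
/-- a crossing of the strands number `i` and `i + 1` -/
abbrev X (i : ℕ) (o : Bool) : Letter := ⟨.cross o, i⟩

/-- `Fits n D m`: the list of slices `D`, read from top to bottom, is a tangle diagram with `n`
strands at the top and `m` strands at the bottom. A link diagram is a `D` with `Fits 0 D 0`. -/
def Fits : ℕ → List Letter → ℕ → Prop
  | n, [], m => n = m
  | n, l :: w, m => l.pos + l.shape.ins ≤ n ∧ Fits (n - l.shape.ins + l.shape.outs) w m

instance Fits.dec : (n : ℕ) → (w : List Letter) → (m : ℕ) → Decidable (Fits n w m)
  | n, [], m => inferInstanceAs (Decidable (n = m))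
  | n, l :: w, m =>
    have := Fits.dec (n - l.shape.ins + l.shape.outs) w m
    inferInstanceAs (Decidable (l.pos + l.shape.ins ≤ n ∧ _))

/-- The local moves: straightening of a strand, the three Reidemeister moves, moving a crossing
around a maximum or a minimum, and exchanging the heights of two distant pieces. -/
inductive Mv where
  | zig (i : ℕ)
  | zag (i : ℕ)
  | r1cap (i : ℕ) (o : Bool)
  | r1cup (i : ℕ) (o : Bool)
  | r2 (i : ℕ) (o : Bool)
  | r3 (i : ℕ) (o : Bool)
  | pcap (i : ℕ) (o : Bool)
  | pcup (i : ℕ) (o : Bool)
  | comm (s : Shape) (i : ℕ) (t : Shape) (k : ℕ)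

/-- one side of a local move -/
def Mv.lhs : Mv → List Letter
  | .zig i => [cap i, cup (i + 1)]
  | .zag i => [cap (i + 1), cup i]
  | .r1cap i o => [cap i, X i o]
  | .r1cup i o => [X i o, cup i]
  | .r2 i o => [X i o, X i (!o)]
  | .r3 i o => [X i o, X (i + 1) o, X i o]
  | .pcap i o => [cap i, X (i + 1) o]
  | .pcup i o => [X (i + 1) o, cup i]
  | .comm s i t k => [⟨t, i + s.ins + k⟩, ⟨s, i⟩]

/-- the other side of a local move -/
def Mv.rhs : Mv → List Letter
  | .zig _ => []
  | .zag _ => []
  | .r1cap i _ => [cap i]
  | .r1cup i _ => [cup i]
  | .r2 _ _ => []
  | .r3 i o => [X (i + 1) o, X i o, X (i + 1) o]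
  | .pcap i o => [cap (i + 1), X i (!o)]
  | .pcup i o => [X i (!o), cup (i + 1)]
  | .comm s i t k => [⟨s, i⟩, ⟨t, i + s.outs + k⟩]

/-- `D'` arises from `D` by replacing one side of a local move by the other. -/
def Step (n m : ℕ) (D D' : List Letter) : Prop :=
  Fits n D m ∧ Fits n D' m ∧ ∃ (p s : List Letter) (v : Mv), D = p ++ v.lhs ++ s ∧
    D' = p ++ v.rhs ++ s

/-- Isotopy of tangles (with `n` strands at the top and `m` at the bottom): the equivalence
relation generated by the local moves. For `n = m = 0` this is equivalence of links. -/
def Isotopic (n m : ℕ) : List Letter → List Letter → Prop := Relation.EqvGen (Step n m)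

/-- the number of local maxima of a diagram -/
def maxima (D : List Letter) : ℕ := (D.filter fun l => l.shape = .cap).length

/-- The bridge number of the link given by a diagram: the least number of local maxima of a
diagram of this link. -/
noncomputable def bridgeNumber (D : List Letter) : ℕ :=
  sInf {b | ∃ D', Isotopic 0 0 D D' ∧ maxima D' = b}

/-- Place `k` vertical strands to the left of `w`. -/
def sh (k : ℕ) (w : List Letter) : List Letter := w.map fun l => ⟨l.shape, l.pos + k⟩

/-- the regions left, right, centre -/
inductive Region where
  | L : Region
  | R : Region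
  | C : Region
deriving DecidableEq

/-- A tie move: the region into which the active end goes, and `inn = true` for an in-move (over
the passive strand), `inn = false` for an out-move (under the passive strand). -/
structure Move where
  region : Region
  inn : Bool

/-- Tie sequences (the final tuck is understood): the first move goes to the left, consecutive
moves go to different regions and alternate between in and out, and the last three moves are
`Lo Ri Co` or `Ro Li Co`. -/
def IsTieSequence (s : List Move) : Prop :=
  (∃ b, s.head? = some ⟨.L, b⟩) ∧
  s.IsChain (fun a b => a.region ≠ b.region ∧ a.inn ≠ b.inn) ∧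
  ∃ t, s = t ++ [⟨.L, false⟩, ⟨.R, true⟩, ⟨.C, false⟩] ∨
    s = t ++ [⟨.R, false⟩, ⟨.L, true⟩, ⟨.C, false⟩]

/-- The part of the tie inside a disk, before the last moves, as a tangle diagram. The left and
the right arm of the neck loop leave the disk upwards, the passive end leaves it downwards. The
active end leaves it downwards to the left (to the right) of the passive end if it is in the
region `L` (in `R`), and upwards between the two arms of the neck loop if it is in `C`.
`wind q w m` is the diagram after the move `m`, if `w` is the diagram before, with the active end
in the region `q`. -/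
def wind : Region → List Letter → Move → List Letter
  | .L, w, ⟨.R, b⟩ => w ++ [X 0 b]
  | .R, w, ⟨.L, b⟩ => w ++ [X 0 (!b)]
  | .L, w, ⟨.C, b⟩ => [X 0 (!b)] ++ sh 1 w ++ [cup 0]
  | .R, w, ⟨.C, b⟩ => [X 1 b] ++ w ++ [cup 1]
  | .C, w, ⟨.L, b⟩ => [cap 0, X 1 b] ++ sh 1 w
  | .C, w, ⟨.R, b⟩ => [cap 2, X 1 (!b)] ++ w
  | .L, w, ⟨.L, _⟩ => w
  | .R, w, ⟨.R, _⟩ => w
  | .C, w, ⟨.C, _⟩ => w

/-- The region of the active end and the tangle diagram after some moves. The first move is one
crossing of the active strand, which comes from the right arm of the neck loop, with the passive
strand, which runs from the left arm of the neck loop to the passive end. -/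
def tangle : List Move → Region × List Letter
  | [] => (.L, [])
  | m :: s => s.foldl (fun p a => (a.region, wind p.1 p.2 a)) (.L, [X 0 (!m.inn)])

/-- The rest of the tie, if the last three moves are `Lo Ri Co` and `w` is the tangle after `Lo`.
The slices `cap 0` and `cap 1` are the neck and the active strand in the region `C`; `X 2 false`
is the crossing of `Co` (under the right arm of the neck loop); the last `X 1 true` is the crossing
of `Ri` (over the passive end). The tuck consists of `X 0 false` (over the left arm of the neck
loop) and the first and second `X 0 true` (over and then under the loop formed by `Ri`). Then the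
active end and the passive end are joined. -/
def closeL (w : List Letter) : List Letter :=
  [cap 0, cap 1, X 0 false, X 2 false] ++ sh 1 w ++ [X 0 true, X 0 true, X 1 true, cup 2, cup 0]

/-- The rest of the tie, if the last three moves are `Ro Li Co`: the mirror image of `closeL`. -/
def closeR (w : List Letter) : List Letter :=
  [cap 0, cap 1, X 0 true, X 2 true] ++ sh 1 w ++ [X 2 false, X 2 false, X 1 false, cup 0, cup 0]

/-- The standard diagram of the tie knot of a tie sequence. -/
def tieDiagram (s : List Move) : List Letter :=
  match tangle s.dropLast.dropLast with
  | (.L, w) => closeL w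
  | (.R, w) => closeR w
  | (.C, _) => []

end Pool.Agent.Helper90.Tie
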