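import Pool.Agent.Helper90.Tie.Pass

/-! Explicit isotopies between small tangles. -/

namespace Pool.Agent.Helper90.Tie

theorem id_base (b : Bool) : Isotopic 2 2
    [cap 1, cap 3, X 2 b, cup 0, cup 2]
    [X 0 b] := by
  cases b
  · exact iso_of_chk
        [⟨0, .comm .cap 1 .cap 0, false⟩, ⟨2, .comm .cup 0 (.cross false) 0, true⟩,
         ⟨1, .zag 0, true⟩, ⟨1, .comm (.cross false) 0 .cup 0, false⟩, ⟨0, .zig 1, true⟩] (by decide)
  · exact iso_of_chk
        [⟨0, .comm .cap 1 .cap 0, false⟩, ⟨2, .comm .cup 0 (.cross true) 0, true⟩,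
         ⟨1, .zag 0, true⟩, ⟨1, .comm (.cross true) 0 .cup 0, false⟩, ⟨0, .zig 1, true⟩] (by decide)

theorem id_LR (b : Bool) : Isotopic 6 2
    [cup 0, cup 2, X 0 b]
    [X 2 b, cup 0, cup 2] := by
  cases b
  · exact iso_of_chk
        [⟨1, .comm (.cross false) 0 .cup 0, true⟩, ⟨0, .comm .cup 0 (.cross false) 0, false⟩] (by decide)
  · exact iso_of_chk
        [⟨1, .comm (.cross true) 0 .cup 0, true⟩, ⟨0, .comm .cup 0 (.cross true) 0, false⟩] (by decide)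

theorem id_L2C (b : Bool) : Isotopic 7 1
    [X 0 b, cup 1, cup 3, cup 0]
    [X 2 b, cup 1, cup 0, cup 1] := by
  cases b
  · exact iso_of_chk
        [⟨0, .pcup 0 true, false⟩, ⟨2, .comm .cup 0 .cup 1, true⟩,
         ⟨1, .comm .cup 0 .cup 0, false⟩, ⟨0, .pcup 1 false, false⟩] (by decide)
  · exact iso_of_chk
        [⟨0, .pcup 0 false, false⟩, ⟨2, .comm .cup 0 .cup 1, true⟩,
         ⟨1, .comm .cup 0 .cup 0, false⟩, ⟨0, .pcup 1 true, false⟩] (by decide)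

theorem id_R2C (b : Bool) : Isotopic 7 1
    [X 5 b, cup 0, cup 2, cup 1]
    [X 3 b, cup 0, cup 2, cup 1] := by
  cases b
  · exact iso_of_chk
        [⟨0, .comm .cup 0 (.cross false) 3, true⟩, ⟨1, .pcup 2 false, true⟩,
         ⟨2, .comm .cup 1 .cup 0, true⟩, ⟨1, .pcup 1 true, true⟩,
         ⟨0, .comm .cup 0 (.cross false) 1, false⟩] (by decide)
  · exact iso_of_chk
        [⟨0, .comm .cup 0 (.cross true) 3, true⟩, ⟨1, .pcup 2 true, true⟩,
         ⟨2, .comm .cup 1 .cup 0, true⟩, ⟨1, .pcup 1 false, true⟩,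
         ⟨0, .comm .cup 0 (.cross true) 1, false⟩] (by decide)

theorem id_C2L (b : Bool) : Isotopic 6 2
    [cap 0, X 1 b, cup 2, cup 1, cup 2]
    [X 1 b, cup 0, cup 2] := by
  cases b
  · exact iso_of_chk
        [⟨0, .pcap 0 false, true⟩, ⟨1, .comm (.cross true) 0 .cup 0, false⟩, ⟨0, .zig 1, true⟩,
         ⟨0, .pcup 0 false, false⟩] (by decide)
  · exact iso_of_chk
        [⟨0, .pcap 0 true, true⟩, ⟨1, .comm (.cross false) 0 .cup 0, false⟩, ⟨0, .zig 1, true⟩,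
         ⟨0, .pcup 0 true, false⟩] (by decide)

theorem id_C2R (b : Bool) : Isotopic 6 2
    [cap 6, X 5 b, cup 0, cup 2, cup 1]
    [X 3 b, cup 0, cup 2] := by
  cases b
  · exact iso_of_chk
        [⟨0, .pcap 5 true, false⟩, ⟨2, .comm .cup 0 .cup 2, false⟩,
         ⟨1, .comm .cup 4 (.cross true) 0, true⟩, ⟨0, .zag 4, true⟩,
         ⟨0, .comm .cup 0 (.cross true) 2, true⟩, ⟨1, .pcup 1 true, true⟩,
         ⟨0, .comm .cup 0 (.cross false) 1, false⟩] (by decide)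
  · exact iso_of_chk
        [⟨0, .pcap 5 false, false⟩, ⟨2, .comm .cup 0 .cup 2, false⟩,
         ⟨1, .comm .cup 4 (.cross false) 0, true⟩, ⟨0, .zag 4, true⟩,
         ⟨0, .comm .cup 0 (.cross false) 2, true⟩, ⟨1, .pcup 1 false, true⟩,
         ⟨0, .comm .cup 0 (.cross true) 1, false⟩] (by decide)

theorem id_Cl2Cr : Isotopic 7 1
    [X 4 false, X 3 false, X 2 false, X 1 false, cup 1, cup 0, cup 1]
    [X 1 true, X 2 true, X 3 true, cup 0, cup 2, cup 1] := by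
  exact iso_of_chk
      [⟨3, .r1cup 1 false, true⟩, ⟨2, .pcup 1 false, true⟩,
       ⟨1, .comm (.cross true) 1 (.cross false) 0, true⟩, ⟨2, .pcup 2 false, true⟩,
       ⟨0, .comm (.cross true) 1 (.cross false) 1, true⟩,
       ⟨1, .comm (.cross true) 2 (.cross false) 0, true⟩, ⟨2, .pcup 3 false, true⟩,
       ⟨3, .comm .cup 0 .cup 2, true⟩] (by decide)

theorem id_Cr2Cl : Isotopic 7 1
    [X 1 true, X 2 true, X 3 true, X 4 true, cup 0, cup 2, cup 1]
    [X 4 false, X 3 false, X 2 false, cup 1, cup 0, cup 1] := by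
  exact iso_of_chk
      [⟨4, .comm .cup 0 .cup 2, false⟩, ⟨3, .r1cup 4 true, true⟩, ⟨2, .pcup 3 false, false⟩,
       ⟨1, .comm (.cross true) 2 (.cross false) 0, false⟩, ⟨2, .pcup 2 false, false⟩,
       ⟨0, .comm (.cross true) 1 (.cross false) 1, false⟩,
       ⟨1, .comm (.cross true) 1 (.cross false) 0, false⟩, ⟨2, .pcup 1 false, false⟩] (by decide)

theorem id_botL : Isotopic 4 0
    [X 0 true, X 0 true, X 1 true, cup 2, cup 0]
    [X 0 true, X 1 true, cup 1, cup 0] := by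
  exact iso_of_chk
      [⟨3, .comm .cup 0 .cup 0, true⟩, ⟨2, .pcup 0 true, true⟩, ⟨1, .r2 0 true, true⟩,
       ⟨1, .r1cup 1 true, false⟩] (by decide)

theorem id_topL : Isotopic 0 4
    [cap 0, cap 1, X 0 false, X 2 false, X 0 true, X 1 true]
    [cap 0, cap 1, X 2 false, X 1 true] := by
  exact iso_of_chk
      [⟨2, .comm (.cross false) 0 (.cross false) 0, false⟩, ⟨3, .r2 0 false, true⟩] (by decide)

theorem id_endL : Isotopic 4 0
    [cap 4, cap 5, X 6 false, X 5 true, X 3 false, X 2 false, X 1 false, X 0 false, cup 0, cup 2, cup 1, cup 0]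
    [X 0 true, X 1 true, X 2 true, X 1 true, X 2 false, cup 1, cup 0] := by
  exact iso_of_chk
      [⟨1, .pcap 5 false, true⟩, ⟨0, .comm .cap 4 .cap 0, false⟩, ⟨1, .pcap 4 true, true⟩,
       ⟨7, .r1cup 0 false, true⟩, ⟨7, .comm .cup 0 .cup 2, false⟩,
       ⟨6, .comm (.cross false) 1 .cup 1, false⟩, ⟨5, .comm (.cross false) 2 .cup 0, false⟩,
       ⟨4, .pcup 3 true, false⟩, ⟨8, .comm .cup 0 .cup 1, false⟩,
       ⟨7, .comm (.cross false) 1 .cup 0, false⟩, ⟨6, .pcup 2 true, false⟩,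
       ⟨5, .comm .cup 3 (.cross true) 0, false⟩, ⟨3, .r3 4 true, false⟩,
       ⟨2, .r2 4 false, true⟩, ⟨1, .r1cap 5 true, true⟩, ⟨1, .pcap 4 false, false⟩,
       ⟨2, .comm .cup 3 (.cross false) 0, true⟩, ⟨1, .zag 3, true⟩, ⟨0, .pcap 3 true, false⟩,
       ⟨1, .comm .cup 2 (.cross true) 0, true⟩, ⟨0, .zag 2, true⟩, ⟨1, .pcup 0 false, true⟩,
       ⟨2, .r1cup 1 true, false⟩, ⟨3, .r2 2 true, false⟩,
       ⟨0, .comm (.cross true) 0 (.cross true) 0, true⟩, ⟨1, .r3 1 true, false⟩] (by decide)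

theorem id_botR : Isotopic 4 0
    [X 2 false, X 2 false, X 1 false, cup 0, cup 0]
    [X 2 false, X 1 false, cup 1, cup 0] := by
  exact iso_of_chk
      [⟨3, .comm .cup 0 .cup 0, false⟩, ⟨2, .pcup 1 true, false⟩, ⟨1, .r2 2 false, true⟩,
       ⟨1, .r1cup 1 false, false⟩] (by decide)

theorem id_topR : Isotopic 0 4
    [cap 0, cap 1, X 0 true, X 2 true, X 2 false, X 1 false]
    [cap 0, cap 1, X 0 true, X 1 false] := by
  exact iso_of_chk
      [⟨3, .r2 2 true, true⟩] (by decide)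

theorem id_endR : Isotopic 4 0
    [cap 0, cap 1, X 0 true, X 1 false, X 3 true, X 4 true, X 5 true, X 6 true, cup 2, cup 4, cup 1, cup 0]
    [X 2 false, X 1 false, X 0 false, X 1 false, X 0 true, cup 1, cup 0] := by
  exact iso_of_chk
      [⟨1, .pcap 0 false, false⟩, ⟨0, .comm .cap 0 .cap 0, true⟩, ⟨1, .pcap 1 true, false⟩,
       ⟨7, .comm .cup 2 (.cross true) 2, true⟩, ⟨6, .comm .cup 2 (.cross true) 1, true⟩,
       ⟨5, .comm .cup 2 (.cross true) 0, true⟩, ⟨4, .pcup 2 true, true⟩,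
       ⟨8, .r1cup 4 true, true⟩, ⟨8, .comm .cup 1 .cup 1, true⟩,
       ⟨7, .comm .cup 1 (.cross true) 0, true⟩, ⟨6, .pcup 1 true, true⟩,
       ⟨5, .comm (.cross false) 1 .cup 0, true⟩, ⟨3, .r3 1 false, true⟩, ⟨2, .r2 2 true, true⟩,
       ⟨1, .r1cap 1 false, true⟩, ⟨1, .pcap 1 false, true⟩,
       ⟨2, .comm (.cross true) 1 .cup 0, false⟩, ⟨1, .zig 2, true⟩, ⟨0, .pcap 0 true, true⟩,
       ⟨1, .comm (.cross false) 0 .cup 0, false⟩, ⟨0, .zig 1, true⟩, ⟨1, .pcup 1 false, false⟩,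
       ⟨2, .r1cup 1 false, false⟩, ⟨3, .r2 0 false, false⟩,
       ⟨0, .comm (.cross false) 0 (.cross false) 0, false⟩, ⟨1, .r3 0 false, true⟩] (by decide)

end Pool.Agent.Helper90.Tie
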