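import Pool.Agent.Helper90.Tie.Ids

/-! Tie knots are two-bridge. -/

namespace Pool.Agent.Helper90.Tie

/-- a braid on four strands -/
def Good (β : List Letter) : Prop := Fits 4 β 4 ∧ maxima β = 0

/-- two maxima and a braid -/
def T (β : List Letter) : List Letter := [cap 0, cap 2] ++ β

theorem Good.append {β γ : List Letter} (h : Good β) (h' : Good γ) : Good (β ++ γ) := by
  refine ⟨h.1.append h'.1, ?_⟩
  have h1 := h.2
  have h2 := h'.2
  unfold maxima at h1 h2 ⊢
  rw [List.filter_append, List.length_append, h1, h2]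

theorem good_X {i : ℕ} (hi : i ≤ 2) (b : Bool) : Good [X i b] := by
  refine ⟨⟨?_, rfl⟩, ?_⟩
  · show i + 2 ≤ 4
    omega
  · simp [maxima]

theorem fits_T {β : List Letter} (h : Good β) : Fits 0 (T β) 4 := by
  unfold T
  refine Fits.append (k := 4) ?_ h.1
  decide

/-- region `L` or `R` -/
def PL (w : List Letter) : Prop :=
  ∃ β, Good β ∧ Isotopic 2 2 w (sh 1 (T β) ++ [cup 0, cup 2])

/-- region `C`, opened to the left -/
def PCl (v : List Letter) : Prop :=
  ∃ β, Good β ∧ Isotopic 3 1 v (sh 2 (T β) ++ [cup 1, cup 0, cup 1])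

/-- region `C`, opened to the right -/
def PCr (v : List Letter) : Prop :=
  ∃ β, Good β ∧ Isotopic 3 1 v (sh 1 (T β) ++ [cup 0, cup 2, cup 1])

theorem base (b : Bool) : PL [X 0 b] := by
  refine ⟨[X 1 b], good_X (by norm_num) b, ?_⟩
  simpa [T] using (id_base b).symm

theorem PL.snoc {w : List Letter} (h : PL w) (b : Bool) : PL (w ++ [X 0 b]) := by
  obtain ⟨β, hβ, h⟩ := h
  refine ⟨β ++ [X 1 b], hβ.append (good_X (by norm_num) b), ?_⟩
  have hT := fits_T hβ
  have h1 := h.right [X 0 b] (b := 2) (by cases b <;> decide)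
  have h2 := (id_LR b).left (sh 1 (T β)) (a := 2) ((hT.sh 1).wide 1)
  simpa [T] using h1.trans (by simpa [T] using h2)

theorem PL.toCl {w : List Letter} (h : PL w) (b : Bool) :
    PCl ([X 0 b] ++ sh 1 w ++ [cup 0]) := by
  obtain ⟨β, hβ, h⟩ := h
  refine ⟨β ++ [X 0 b], hβ.append (good_X (by norm_num) b), ?_⟩
  have hT := fits_T hβ
  have h2 := (h.sh 1).congr [X 0 b] [cup 0] (a := 3) (b := 1) (by cases b <;> decide) (by decide)
  have h3 := (comm_words (n := 2) (m := 2) (u := [X 0 b]) (p := 1) (q := 5) (v := T β)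
    (by cases b <;> decide) (hT.wide 1)).right [cup 1, cup 3, cup 0] (b := 1) (by decide)
  have h5 := (id_L2C b).left (sh 2 (T β)) (a := 3) ((hT.sh 2).wide 1)
  refine h2.trans (Isotopic.trans (v := [X 0 b] ++ sh 2 (T β) ++ [cup 1, cup 3, cup 0]) ?_
    (h3.trans ?_))
  · simp only [sh_append, sh_sh, List.append_assoc]
    exact Isotopic.refl _
  · simpa [T] using h5

theorem PL.toCr {w : List Letter} (h : PL w) (b : Bool) :
    PCr ([X 1 b] ++ w ++ [cup 1]) := by
  obtain ⟨β, hβ, h⟩ := h
  refine ⟨β ++ [X 2 b], hβ.append (good_X (by norm_num) b), ?_⟩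
  have hT := fits_T hβ
  have h2 := (h.wide 1).congr [X 1 b] [cup 1] (a := 3) (b := 1) (by cases b <;> decide)
    (by decide)
  have h3 := (comm_words (n := 1) (m := 5) (u := sh 1 (T β)) (p := 2) (q := 2) (v := [X 0 b])
    (hT.sh 1) (by cases b <;> decide)).symm.right [cup 0, cup 2, cup 1] (b := 1) (by decide)
  have h5 := (id_R2C b).left (sh 1 (T β)) (a := 3) ((hT.sh 1).wide 2)
  refine h2.trans (Isotopic.trans (v := sh 1 [X 0 b] ++ sh 1 (T β) ++ [cup 0, cup 2, cup 1]) ?_
    (h3.trans ?_))
  · simp only [sh_cons, sh_nil, Nat.zero_add, List.append_assoc]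
    exact Isotopic.refl _
  · simpa [T] using h5

theorem PCl.toL {v : List Letter} (h : PCl v) (b : Bool) : PL ([cap 0, X 1 b] ++ sh 1 v) := by
  obtain ⟨β, hβ, h⟩ := h
  refine ⟨β ++ [X 0 b], hβ.append (good_X (by norm_num) b), ?_⟩
  have hT := fits_T hβ
  have h2 := (h.sh 1).left [cap 0, X 1 b] (a := 2) (by cases b <;> decide)
  have h3 := (comm_words (n := 1) (m := 3) (u := [cap 0, X 1 b]) (p := 1) (q := 5) (v := T β)
    (by cases b <;> decide) (hT.wide 1)).right [cup 2, cup 1, cup 2] (b := 2) (by decide)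
  have h5 := (id_C2L b).left (sh 1 (T β)) (a := 2) ((hT.sh 1).wide 1)
  refine h2.trans (Isotopic.trans (v := [cap 0, X 1 b] ++ sh 3 (T β) ++ [cup 2, cup 1, cup 2]) ?_
    (h3.trans ?_))
  · simp only [sh_append, sh_sh, List.append_assoc]
    exact Isotopic.refl _
  · simpa [T] using h5

theorem PCr.toR {v : List Letter} (h : PCr v) (b : Bool) : PL ([cap 2, X 1 b] ++ v) := by
  obtain ⟨β, hβ, h⟩ := h
  refine ⟨β ++ [X 2 b], hβ.append (good_X (by norm_num) b), ?_⟩
  have hT := fits_T hβ
  have h2 := (h.wide 1).left [cap 2, X 1 b] (a := 2) (by cases b <;> decide)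
  have h3 := (comm_words (n := 1) (m := 5) (u := sh 1 (T β)) (p := 1) (q := 3)
    (v := [cap 1, X 0 b]) (hT.sh 1) (by cases b <;> decide)).symm.right [cup 0, cup 2, cup 1]
    (b := 2) (by decide)
  have h5 := (id_C2R b).left (sh 1 (T β)) (a := 2) ((hT.sh 1).wide 1)
  refine h2.trans (Isotopic.trans (v := sh 1 [cap 1, X 0 b] ++ sh 1 (T β) ++
    [cup 0, cup 2, cup 1]) ?_ (h3.trans ?_))
  · simp only [sh_cons, sh_nil, Nat.zero_add, List.append_assoc]
    exact Isotopic.refl _
  · simpa [T] using h5

theorem pass_inv {t : List Letter} (ht : Fits 0 t 4) :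
    Isotopic 1 5 (sh 1 t) (t ++ [X 3 false, X 2 false, X 1 false, X 0 false]) := by
  have h1 := (pass_closed ht true).right [X 3 false, X 2 false, X 1 false, X 0 false] (b := 5)
    (by decide)
  have h2 : Isotopic 5 5 [X 0 true, X 1 true, X 2 true, X 3 true, X 3 false, X 2 false,
      X 1 false, X 0 false] [] :=
    iso_of_chk [⟨3, .r2 3 true, true⟩, ⟨2, .r2 2 true, true⟩, ⟨1, .r2 1 true, true⟩,
      ⟨0, .r2 0 true, true⟩] (by decide)
  have h3 := h2.left (sh 1 t) (a := 1) (ht.sh 1)
  refine Isotopic.symm (h1.trans ?_)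
  simpa [pass] using h3

theorem PCl.toPCr {v : List Letter} (h : PCl v) : PCr v := by
  obtain ⟨β, hβ, h⟩ := h
  refine ⟨β ++ ([X 0 true] ++ ([X 1 true] ++ [X 2 true])),
    hβ.append ((good_X (by norm_num) _).append ((good_X (by norm_num) _).append
      (good_X (by norm_num) _))), ?_⟩
  have hT := fits_T hβ
  have h1 := (((pass_inv hT).sh 1).wide 1).right [cup 1, cup 0, cup 1] (b := 1) (by decide)
  have h2 := id_Cl2Cr.left (sh 1 (T β)) (a := 3) ((hT.sh 1).wide 2)
  refine h.trans (Isotopic.trans (v := sh 1 (sh 1 (T β)) ++ [cup 1, cup 0, cup 1]) ?_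
    (h1.trans ?_))
  · simp only [sh_sh]
    exact Isotopic.refl _
  · simpa [T] using h2

theorem PCr.toPCl {v : List Letter} (h : PCr v) : PCl v := by
  obtain ⟨β, hβ, h⟩ := h
  refine ⟨β ++ ([X 2 false] ++ ([X 1 false] ++ [X 0 false])),
    hβ.append ((good_X (by norm_num) _).append ((good_X (by norm_num) _).append
      (good_X (by norm_num) _))), ?_⟩
  have hT := fits_T hβ
  have h1 := (((pass_closed hT true).sh 1).wide 1).right [cup 0, cup 2, cup 1] (b := 1)
    (by decide)
  have h2 := id_Cr2Cl.left (sh 2 (T β)) (a := 3) ((hT.sh 2).wide 1)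
  refine h.trans (h1.trans ?_)
  have e : sh 1 (sh 1 (T β)) = sh 2 (T β) := sh_sh _ _ _
  rw [sh_append, e]
  simpa [T, pass] using h2

/-- The invariant. -/
def Inv (p : Region × List Letter) : Prop :=
  match p.1 with
  | .L => PL p.2
  | .R => PL p.2
  | .C => PCl p.2 ∧ PCr p.2

theorem Inv.wind {q : Region} {w : List Letter} (h : Inv (q, w)) (m : Move) :
    Inv (m.region, wind q w m) := by
  obtain ⟨r, b⟩ := m
  cases q <;> cases r
  · exact h
  · exact PL.snoc h b
  · exact ⟨PL.toCl h (!b), (PL.toCl h (!b)).toPCr⟩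
  · exact PL.snoc h (!b)
  · exact h
  · exact ⟨(PL.toCr h b).toPCl, PL.toCr h b⟩
  · exact PCl.toL h.1 b
  · exact PCr.toR h.2 (!b)
  · exact h

theorem inv_tangle (m : Move) (s : List Move) : Inv (tangle (m :: s)) := by
  have key : ∀ (s : List Move) (p : Region × List Letter), Inv p →
      Inv (s.foldl (fun p a => (a.region, wind p.1 p.2 a)) p) := by
    intro s
    induction s with
    | nil => intro p h; exact h
    | cons a s ih =>
      intro p h
      exact ih _ (Inv.wind h a)
  exact key s _ (base _)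

theorem maxima_T {β γ : List Letter} (hβ : Good β) (hγ : maxima γ = 0) :
    maxima (T β ++ γ) = 2 := by
  have h1 := hβ.2
  unfold maxima at h1 hγ
  unfold T maxima
  rw [List.filter_append, List.filter_append, List.length_append, List.length_append, h1, hγ]
  simp

theorem closeL_iso {w : List Letter} (h : PL w) :
    ∃ D', Isotopic 0 0 (closeL w) D' ∧ maxima D' = 2 ∧ Fits 0 D' 0 := by
  obtain ⟨β, hβ, h⟩ := h
  have hT := fits_T hβ
  have hw : Fits 2 w 2 := h.fits.2 (Fits.append (k := 6) ((hT.sh 1).wide 1) (by decide))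
  refine ⟨T β ++ [X 0 true, X 1 true, X 2 true, X 1 true, X 2 false, cup 1, cup 0], ?_,
    maxima_T hβ (by decide), hT.append (by decide)⟩
  -- the last under-crossing of the tuck cancels with the crossing of `Ri`
  have h1 := id_botL.left ([cap 0, cap 1, X 0 false, X 2 false] ++ sh 1 w) (a := 0)
    (Fits.append (k := 4) (by decide) ((hw.sh 1).wide 1))
  -- the active strand is moved over the tangle
  have h2 := ((pass_word hw true).symm.wide 1).congr [cap 0, cap 1, X 0 false, X 2 false]
    [cup 1, cup 0] (a := 0) (b := 0) (by decide) (by decide)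
  have h3 := id_topL.right (w ++ [cup 1, cup 0]) (b := 0)
    (Fits.append (k := 4) (hw.wide 2) (by decide))
  have h4 := (h.wide 2).congr [cap 0, cap 1, X 2 false, X 1 true] [cup 1, cup 0] (a := 0)
    (b := 0) (by decide) (by decide)
  have h5 := ((pass_inv hT).wide 3).congr [cap 0, cap 1, X 2 false, X 1 true]
    [cup 0, cup 2, cup 1, cup 0] (a := 0) (b := 0) (by decide) (by decide)
  have h6 := (comm_words (n := 0) (m := 4) (p := 0) (q := 4) (u := T β)
    (v := [cap 0, cap 1, X 2 false, X 1 true]) hT (by decide)).symm.right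
    [X 3 false, X 2 false, X 1 false, X 0 false, cup 0, cup 2, cup 1, cup 0] (b := 0) (by decide)
  have h7 := id_endL.left (T β) (a := 0) hT
  refine Isotopic.trans ?_ (Isotopic.trans h1 ?_)
  · simp only [closeL, List.append_assoc]
    exact Isotopic.refl _
  refine Isotopic.trans ?_ (Isotopic.trans h2 ?_)
  · simp only [pass, List.append_assoc]
    exact Isotopic.refl _
  refine Isotopic.trans ?_ (Isotopic.trans h3 ?_)
  · simp only [pass, List.append_assoc]
    exact Isotopic.refl _
  refine Isotopic.trans ?_ (Isotopic.trans h4 ?_)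
  · simp only [List.append_assoc]
    exact Isotopic.refl _
  refine Isotopic.trans ?_ (Isotopic.trans h5 ?_)
  · simp only [List.append_assoc]
    exact Isotopic.refl _
  refine Isotopic.trans ?_ (Isotopic.trans h6 ?_)
  · simp only [sh_zero, List.append_assoc]
    exact Isotopic.refl _
  refine Isotopic.trans ?_ h7
  · simp only [sh_cons, sh_nil, List.append_assoc]
    exact Isotopic.refl _

theorem closeR_iso {w : List Letter} (h : PL w) :
    ∃ D', Isotopic 0 0 (closeR w) D' ∧ maxima D' = 2 ∧ Fits 0 D' 0 := by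
  obtain ⟨β, hβ, h⟩ := h
  have hT := fits_T hβ
  have hw : Fits 2 w 2 := h.fits.2 (Fits.append (k := 6) ((hT.sh 1).wide 1) (by decide))
  refine ⟨T β ++ [X 2 false, X 1 false, X 0 false, X 1 false, X 0 true, cup 1, cup 0], ?_,
    maxima_T hβ (by decide), hT.append (by decide)⟩
  have h1 := id_botR.left ([cap 0, cap 1, X 0 true, X 2 true] ++ sh 1 w) (a := 0)
    (Fits.append (k := 4) (by decide) ((hw.sh 1).wide 1))
  -- a strand passing to the left
  have hp : Isotopic 3 3 (w ++ [X 1 false, X 0 false]) ([X 1 false, X 0 false] ++ sh 1 w) := by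
    have g1 := (pass_word hw true).congr [X 1 false, X 0 false] [X 1 false, X 0 false] (a := 3)
      (b := 3) (by decide) (by decide)
    have g2 : Isotopic 3 3 [X 1 false, X 0 false, X 0 true, X 1 true] [] :=
      iso_of_chk [⟨1, .r2 0 false, true⟩, ⟨0, .r2 1 false, true⟩] (by decide)
    have g3 : Isotopic 3 3 [X 0 true, X 1 true, X 1 false, X 0 false] [] :=
      iso_of_chk [⟨1, .r2 1 true, true⟩, ⟨0, .r2 0 true, true⟩] (by decide)
    have g4 := g2.right (w ++ [X 1 false, X 0 false]) (b := 3)
      (Fits.append (k := 3) (hw.wide 1) (by decide))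
    have g5 := g3.left ([X 1 false, X 0 false] ++ sh 1 w) (a := 3)
      (Fits.append (k := 3) (by decide) (hw.sh 1))
    refine Isotopic.trans ?_ (Isotopic.trans (g4.symm) ?_)
    · exact Isotopic.refl _
    refine Isotopic.trans ?_ (Isotopic.trans g1 ?_)
    · simp only [pass, List.append_assoc, List.cons_append, List.nil_append]
      exact Isotopic.refl _
    refine Isotopic.trans ?_ (Isotopic.trans g5 ?_)
    · simp only [pass, List.append_assoc, List.cons_append, List.nil_append]
      exact Isotopic.refl _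
    · simp only [List.append_nil]
      exact Isotopic.refl _
  have h2 := (hp.sh 1).congr [cap 0, cap 1, X 0 true, X 2 true] [cup 1, cup 0] (a := 0) (b := 0)
    (by decide) (by decide)
  have h3 := id_topR.right (sh 2 w ++ [cup 1, cup 0]) (b := 0)
    (Fits.append (k := 4) (hw.sh 2) (by decide))
  have h4 := (h.sh 2).congr [cap 0, cap 1, X 0 true, X 1 false] [cup 1, cup 0] (a := 0)
    (b := 0) (by decide) (by decide)
  have h5 := ((pass_closed hT true).sh 3).congr [cap 0, cap 1, X 0 true, X 1 false]
    [cup 2, cup 4, cup 1, cup 0] (a := 0) (b := 0) (by decide) (by decide)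
  have h6 := (comm_words (n := 0) (m := 4) (p := 0) (q := 4)
    (u := [cap 0, cap 1, X 0 true, X 1 false]) (v := T β) (by decide) hT).right
    [X 3 true, X 4 true, X 5 true, X 6 true, cup 2, cup 4, cup 1, cup 0] (b := 0) (by decide)
  have h7 := id_endR.left (T β) (a := 0) hT
  refine Isotopic.trans ?_ (Isotopic.trans h1 ?_)
  · simp only [closeR, List.append_assoc]
    exact Isotopic.refl _
  refine Isotopic.trans ?_ (Isotopic.trans h2 ?_)
  · simp only [sh_append, sh_cons, sh_nil, List.append_assoc, List.cons_append, List.nil_append]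
    exact Isotopic.refl _
  refine Isotopic.trans ?_ (Isotopic.trans h3 ?_)
  · simp only [sh_append, sh_cons, sh_nil, sh_sh, List.append_assoc, List.cons_append,
      List.nil_append]
    exact Isotopic.refl _
  refine Isotopic.trans ?_ (Isotopic.trans h4 ?_)
  · simp only [List.append_assoc]
    exact Isotopic.refl _
  refine Isotopic.trans ?_ (Isotopic.trans h5 ?_)
  · simp only [sh_append, sh_cons, sh_nil, sh_sh, List.append_assoc, List.cons_append,
      List.nil_append]
    exact Isotopic.refl _
  refine Isotopic.trans ?_ (Isotopic.trans h6 ?_)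
  · simp only [pass, sh_append, sh_cons, sh_nil, sh_sh, List.append_assoc, List.cons_append,
      List.nil_append]
    exact Isotopic.refl _
  refine Isotopic.trans ?_ h7
  · simp only [sh_zero, List.append_assoc, List.cons_append, List.nil_append]
    exact Isotopic.refl _

theorem tangle_last (a : Move) (t : List Move) (m : Move) :
    (tangle (a :: (t ++ [m]))).1 = m.region := by
  simp [tangle, List.foldl_append]

theorem tieDiagram_eq (t : List Move) (a b c : Move) :
    tieDiagram (t ++ [a, b, c]) = match tangle (t ++ [a]) with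
      | (.L, w) => closeL w
      | (.R, w) => closeR w
      | (.C, _) => [] := by
  have e : (t ++ [a, b, c]).dropLast.dropLast = t ++ [a] := by
    have e1 : t ++ [a, b, c] = (t ++ [a] ++ [b]) ++ [c] := by simp
    rw [e1, List.dropLast_concat, List.dropLast_concat]
  unfold tieDiagram
  rw [e]
  generalize tangle (t ++ [a]) = p
  obtain ⟨q, w⟩ := p
  cases q <;> rfl

/-- Every tie diagram is a link diagram, and it is isotopic to a diagram with two maxima. -/
theorem tie_iso {s : List Move} (hs : IsTieSequence s) :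
    Fits 0 (tieDiagram s) 0 ∧
      ∃ D', Isotopic 0 0 (tieDiagram s) D' ∧ maxima D' = 2 ∧ Fits 0 D' 0 := by
  have key : ∃ D', Isotopic 0 0 (tieDiagram s) D' ∧ maxima D' = 2 ∧ Fits 0 D' 0 := by
    obtain ⟨⟨b, hb⟩, -, t, ht⟩ := hs
    rcases ht with rfl | rfl
    · rw [tieDiagram_eq]
      have h1 : (tangle (t ++ [⟨.L, false⟩])).1 = .L := by
        cases t with
        | nil => rfl
        | cons a t => exact tangle_last a t _
      have h2 : Inv (tangle (t ++ [⟨.L, false⟩])) := by
        cases t with
        | nil => exact inv_tangle _ _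
        | cons a t => exact inv_tangle _ _
      generalize tangle (t ++ [⟨.L, false⟩]) = p at h1 h2
      obtain ⟨q, w⟩ := p
      simp only at h1
      subst h1
      exact closeL_iso h2
    · rw [tieDiagram_eq]
      have h1 : (tangle (t ++ [⟨.R, false⟩])).1 = .R := by
        cases t with
        | nil => simp at hb
        | cons a t => exact tangle_last a t _
      have h2 : Inv (tangle (t ++ [⟨.R, false⟩])) := by
        cases t with
        | nil => exact inv_tangle _ _
        | cons a t => exact inv_tangle _ _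
      generalize tangle (t ++ [⟨.R, false⟩]) = p at h1 h2
      obtain ⟨q, w⟩ := p
      simp only at h1
      subst h1
      exact closeR_iso h2
  exact ⟨by obtain ⟨D', h, -, h'⟩ := key; exact h.fits.2 h', key⟩

theorem bridgeNumber_tie {s : List Move} (hs : IsTieSequence s) :
    Fits 0 (tieDiagram s) 0 ∧ bridgeNumber (tieDiagram s) ≤ 2 := by
  obtain ⟨h, D', h1, h2, -⟩ := tie_iso hs
  exact ⟨h, Nat.sInf_le ⟨D', h1, h2⟩⟩

end Pool.Agent.Helper90.Tie
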