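import Pool.Agent.Helper90.Tie.Basic

/-! A strand passing over (or under) a whole tangle. -/

namespace Pool.Agent.Helper90.Tie

/-- The strand number `i` passes to the right over (`o = true`) or under `n` strands. -/
def pass (i : ℕ) : ℕ → Bool → List Letter
  | 0, _ => []
  | n + 1, o => X i o :: pass (i + 1) n o

theorem pass_zero (i : ℕ) (o : Bool) : pass i 0 o = [] := rfl
theorem pass_succ (i n : ℕ) (o : Bool) : pass i (n + 1) o = X i o :: pass (i + 1) n o := rfl

theorem pass_add (i a b : ℕ) (o : Bool) :
    pass i (a + b) o = pass i a o ++ pass (i + a) b o := by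
  induction a generalizing i with
  | zero => simp [pass_zero]
  | succ a ih =>
    rw [Nat.add_right_comm, pass_succ, pass_succ, ih, List.cons_append]
    congr 3
    omega

theorem sh_pass (k i n : ℕ) (o : Bool) : sh k (pass i n o) = pass (i + k) n o := by
  induction n generalizing i with
  | zero => simp [pass_zero]
  | succ n ih =>
    rw [pass_succ, pass_succ, sh_cons, ih]
    congr 2
    omega

theorem fits_pass (i n r : ℕ) (o : Bool) : Fits (i + n + 1 + r) (pass i n o) (i + n + 1 + r) := by
  induction n generalizing i with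
  | zero => exact rfl
  | succ n ih =>
    rw [pass_succ, fits_cons]
    simp only [Shape.ins, Shape.outs]
    refine ⟨by omega, ?_⟩
    have := ih (i + 1)
    have e : i + (n + 1) + 1 + r - 2 + 2 = i + 1 + n + 1 + r := by omega
    have e' : i + (n + 1) + 1 + r = i + 1 + n + 1 + r := by omega
    rw [e, e']
    exact this

theorem fits_pass' {N i n : ℕ} (o : Bool) (h : i + n + 1 ≤ N) : Fits N (pass i n o) N := by
  obtain ⟨r, rfl⟩ := Nat.exists_eq_add_of_le h
  exact fits_pass i n r o

/-- The strand passes over a single piece. -/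
theorem pass_local (s : Shape) (o : Bool) :
    Isotopic (s.ins + 1) (s.outs + 1) (pass 0 s.ins o ++ [⟨s, 0⟩])
      ([⟨s, 1⟩] ++ pass 0 s.outs o) := by
  cases s with
  | cap =>
    cases o
    · exact iso_of_chk [⟨1, .r2 1 true, false⟩, ⟨0, .pcap 0 true, true⟩] (by decide)
    · exact iso_of_chk [⟨1, .r2 1 false, false⟩, ⟨0, .pcap 0 false, true⟩] (by decide)
  | cup =>
    cases o
    · exact iso_of_chk [⟨1, .pcup 0 false, true⟩, ⟨0, .r2 0 false, true⟩] (by decide)
    · exact iso_of_chk [⟨1, .pcup 0 true, true⟩, ⟨0, .r2 0 true, true⟩] (by decide)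
  | cross c =>
    cases o <;> cases c
    · exact iso_of_chk [⟨0, .r3 0 false, true⟩] (by decide)
    · exact iso_of_chk [⟨0, .r2 1 true, false⟩, ⟨1, .r3 0 false, false⟩,
        ⟨3, .r2 0 false, true⟩] (by decide)
    · exact iso_of_chk [⟨0, .r2 1 false, false⟩, ⟨1, .r3 0 true, false⟩,
        ⟨3, .r2 0 true, true⟩] (by decide)
    · exact iso_of_chk [⟨0, .r3 0 true, true⟩] (by decide)

theorem pass_letter (s : Shape) (o : Bool) {j n : ℕ} (h : j + s.ins ≤ n) :
    Isotopic (n + 1) (n - s.ins + s.outs + 1) (pass 0 n o ++ [⟨s, j⟩])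
      ([⟨s, j + 1⟩] ++ pass 0 (n - s.ins + s.outs) o) := by
  obtain ⟨r, rfl⟩ := Nat.exists_eq_add_of_le h
  have e1 : j + s.ins + r - s.ins + s.outs = j + s.outs + r := by omega
  rw [e1]
  -- the part to the right
  have h1 := comm_words (n := j + s.ins) (m := j + s.outs) (p := r + 1) (q := r + 1)
    (u := [⟨s, j⟩]) (v := pass 0 r o) (by
      simp only [fits_cons, fits_nil]
      omega) (fits_pass' o (by omega))
  rw [sh_pass, sh_pass] at h1
  simp only [Nat.zero_add] at h1
  -- the middle
  have h2 := ((pass_local s o).sh j).wide r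
  rw [sh_append, sh_append, sh_pass, sh_pass] at h2
  simp only [Nat.zero_add, sh_cons, sh_nil] at h2
  -- the part to the left
  have h3 := comm_words (n := j + 1) (m := j + 1) (p := s.ins + r) (q := s.outs + r)
    (u := pass 0 j o) (v := [⟨s, 0⟩]) (fits_pass' o (by omega)) (by
      simp only [fits_cons, fits_nil]
      omega)
  simp only [sh_cons, sh_nil, Nat.zero_add] at h3
  rw [pass_add, pass_add, pass_add 0 (j + s.outs), pass_add 0 j s.outs]
  simp only [Nat.zero_add]
  refine Isotopic.trans (v := pass 0 j o ++ pass j s.ins o ++ ([⟨s, j⟩] ++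
    pass (j + s.outs) r o)) ?_ ?_
  · have := h1.symm.left (pass 0 j o ++ pass j s.ins o) (a := j + s.ins + r + 1) (by
      have := (fits_pass' (N := j + s.ins + r + 1) (i := 0) (n := j) o (by omega)).append
        (fits_pass' (N := j + s.ins + r + 1) (i := j) (n := s.ins) o (by omega))
      have e : j + s.ins + (r + 1) = j + s.ins + r + 1 := by omega
      rw [e]
      exact this)
    have e : j + s.outs + (r + 1) = j + s.outs + r + 1 := by omega
    rw [e] at this
    simpa [List.append_assoc] using this
  refine Isotopic.trans (v := pass 0 j o ++ ([⟨s, 1 + j⟩] ++ pass j s.outs o) ++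
    pass (j + s.outs) r o) ?_ ?_
  · have := h2.congr (pass 0 j o) (pass (j + s.outs) r o) (a := j + s.ins + r + 1)
      (b := j + s.outs + r + 1) (by
        have e : s.ins + 1 + j + r = j + s.ins + r + 1 := by omega
        rw [e]
        exact fits_pass' o (by omega)) (by
        have e : s.outs + 1 + j + r = j + s.outs + r + 1 := by omega
        rw [e]
        exact fits_pass' o (by omega))
    simpa [List.append_assoc] using this
  · have := h3.right (pass j s.outs o ++ pass (j + s.outs) r o) (b := j + s.outs + r + 1) (by
      have := (fits_pass' (N := j + s.outs + r + 1) (i := j) (n := s.outs) o (by omega)).append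
        (fits_pass' (N := j + s.outs + r + 1) (i := j + s.outs) (n := r) o (by omega))
      have e : j + 1 + (s.outs + r) = j + s.outs + r + 1 := by omega
      rw [e]
      exact this)
    have e : j + 1 + (s.ins + r) = j + s.ins + r + 1 := by omega
    rw [e] at this
    have e2 : 1 + j = j + 1 := by omega
    rw [e2]
    simpa [List.append_assoc] using this

/-- A strand may be moved over (or under) a whole tangle. -/
theorem pass_word {n m : ℕ} {w : List Letter} (hw : Fits n w m) (o : Bool) :
    Isotopic (n + 1) (m + 1) (pass 0 n o ++ w) (sh 1 w ++ pass 0 m o) := by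
  induction w generalizing n with
  | nil =>
    rw [fits_nil] at hw
    subst hw
    simp only [List.append_nil, sh_nil, List.nil_append]
    exact Isotopic.refl _
  | cons l w ih =>
    obtain ⟨s, j⟩ := l
    rw [fits_cons] at hw
    simp only at hw
    have h1 := (pass_letter s o hw.1).right w (b := m + 1) (hw.2.wide 1)
    have h2 := (ih hw.2).left [⟨s, j + 1⟩] (a := n + 1) (by
      simp only [fits_cons, fits_nil]
      omega)
    refine Isotopic.trans (v := [⟨s, j + 1⟩] ++ (pass 0 (n - s.ins + s.outs) o ++ w)) ?_ ?_
    · simpa using h1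
    · simpa using h2

/-- A strand to the left of a tangle without strands at the top. -/
theorem pass_closed {m : ℕ} {w : List Letter} (hw : Fits 0 w m) (o : Bool) :
    Isotopic 1 (m + 1) w (sh 1 w ++ pass 0 m o) := by
  have := pass_word hw o
  simpa [pass_zero] using this

end Pool.Agent.Helper90.Tie
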